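import Pool.Agent.Helper28.PCF.Red

/-!
# MP_50178a_lc: the number of common zeros of m polynomials from counts for single polynomials
-/

set_option autoImplicit false

namespace Pool.Agent.Results.MP_50178a_lc.SinglePolynomial

open MvPolynomial Pool.Agent.Helper28.PCF

theorem result :
    ∀ (F : Type) [Field F] [Finite F] (n m d k : ℕ) (f : Fin m → MvPolynomial (Fin n) F),
      n < k → (∀ i, (f i).totalDegree ≤ d) →
      (∀ S : Finset (Fin k), (single f k S).totalDegree ≤ S.card * (d + (m - 1))) ∧
      (Nat.card (Fin n → F) ≤ (m - 1) ^ (k * n) ∨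
        (numZeros f : ℤ) = (∑ S ∈ (Finset.univ : Finset (Finset (Fin k))).erase ∅,
          (-1 : ℤ) ^ (S.card + 1) * (numZero (single f k S) : ℤ)) / (Nat.card F : ℤ) ^ k) :=
  fun F _ _ n m d k f hk hd => main F n m d k f hk hd

end Pool.Agent.Results.MP_50178a_lc.SinglePolynomial
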